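import Pool.Agent.Lib.MP_b1a3a4_al.MVS.LG.Iface

/-!
# Project MVS, part IV: INJ1 (12.24)
-/

set_option linter.all false

namespace Pool.Agent.Lib.MP_b1a3a4_al.MVS.LG.H72

open Finsupp

section PI

variable {n : ℕ} {K : Fin n → Type} [∀ j, Group (K j)] {Ω : Type}
  {α : ∀ j, K j →* Equiv.Perm Ω}

lemma pi_add {v w : (∀ j, K j) → L2 Ω} (hv : PI α v) (hw : PI α w) :
    PI α (fun x => v x + w x) := by
  obtain ⟨a, ha, hv⟩ := hv
  obtain ⟨b, hb, hw⟩ := hw
  refine ⟨fun j x => a j x + b j x, fun j x g => ?_, fun x => ?_⟩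
  · show a j _ + b j _ = _
    rw [ha, hb]
  · show v x + w x = ∑ j, (tr (α j (x j)) (a j x + b j x) - (a j x + b j x))
    rw [hv x, hw x, ← Finset.sum_add_distrib]
    refine Finset.sum_congr rfl fun j _ => ?_
    rw [map_add]
    abel

lemma pi_zsmul {v : (∀ j, K j) → L2 Ω} (hv : PI α v) (e : ℤ) :
    PI α (fun x => e • v x) := by
  obtain ⟨a, ha, hv⟩ := hv
  refine ⟨fun j x => e • a j x, fun j x g => ?_, fun x => ?_⟩
  · show e • a j _ = _
    rw [ha]
  · show e • v x = ∑ j, (tr (α j (x j)) (e • a j x) - e • a j x)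
    rw [hv x, Finset.smul_sum]
    refine Finset.sum_congr rfl fun j _ => ?_
    rw [map_zsmul, smul_sub]

end PI

section bar

variable {S : Type} [Group S]

lemma act_single {q : ℕ} (s : S) (t : Fin (q + 1) → S) (a : ℤ) :
    act s (Finsupp.single t a) = Finsupp.single (fun i => s * t i) a := by
  simp [act]

lemma bd_single (q : ℕ) (t : Fin (q + 2) → S) (a : ℤ) :
    bd S q (Finsupp.single t a) = a • ∑ k : Fin (q + 2), ((-1 : ℤ) ^ (k : ℕ)) •
      Finsupp.single (fun i => t (k.succAbove i)) (1 : ℤ) := by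
  simp [bd]

/-- the evaluation of a cocycle vanishes on boundaries -/
lemma ev_bd {V : Type} [AddCommGroup V] {q : ℕ} (c : (Fin (q + 1) → S) → V)
    (hc : ∀ t : Fin (q + 2) → S,
      ∑ k : Fin (q + 2), ((-1 : ℤ) ^ (k : ℕ)) • c (fun i => t (k.succAbove i)) = 0)
    (v : BC S (q + 1)) : ev c (bd S q v) = 0 := by
  have h : (ev c).comp (bd S q) = 0 := by
    refine Finsupp.addHom_ext fun t a => ?_
    rw [AddMonoidHom.comp_apply, bd_single, map_zsmul, map_sum]
    simp only [map_zsmul, ev_single, one_smul]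
    rw [hc t, smul_zero]
    rfl
  exact DFunLike.congr_fun h v

/-- equivariance of the evaluation -/
lemma ev_act {V : Type} [AddCommGroup V] {q : ℕ} (c : (Fin (q + 1) → S) → V) (s : S)
    (A : V →+ V) (hc : ∀ t : Fin (q + 1) → S, c (fun i => s * t i) = A (c t))
    (v : BC S q) : ev c (act s v) = A (ev c v) := by
  have h : (ev c).comp (act s) = A.comp (ev c) := by
    refine Finsupp.addHom_ext fun t a => ?_
    rw [AddMonoidHom.comp_apply, AddMonoidHom.comp_apply, act_single, ev_single, ev_single,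
      hc t, map_zsmul]
  exact DFunLike.congr_fun h v

end bar

section ext

variable {S Ω Y : Type} [Group S] (α : S →* Equiv.Perm Ω) (b : Y → L2 Ω)

lemma sact_single (s : S) (y : Y) (t : S) (a : ℤ) :
    sact s (Finsupp.single y (MonoidAlgebra.single t a)) =
      Finsupp.single y (MonoidAlgebra.single (s * t) a) := by
  simp [sact, MonoidAlgebra.single_mul_single]

/-- induction on free modules over the group ring -/
lemma free_induction {M : (Y →₀ MonoidAlgebra ℤ S) → Prop}
    (h0 : M 0) (hadd : ∀ v w, M v → M w → M (v + w))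
    (hs : ∀ y s (a : ℤ), M (Finsupp.single y (MonoidAlgebra.single s a)))
    (v : Y →₀ MonoidAlgebra ℤ S) : M v := by
  induction v using Finsupp.induction_linear with
  | zero => exact h0
  | add v w hv hw => exact hadd v w hv hw
  | single y x =>
    induction x using MonoidAlgebra.induction_linear with
    | zero => simpa using h0
    | add x x' hx hx' =>
      rw [Finsupp.single_add]
      exact hadd _ _ hx hx'
    | single s a => exact hs y s a

lemma ext_sact (s : S) (v : Y →₀ MonoidAlgebra ℤ S) :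
    ext α b (sact s v) = tr (α s) (ext α b v) := by
  induction v using free_induction with
  | h0 => simp [sact]
  | hadd v w hv hw =>
    have : sact s (v + w) = sact s v + sact s w := by simp [sact]
    rw [this, map_add, map_add, map_add, hv, hw]
  | hs y t a =>
    rw [sact_single, ext_single, ext_single, map_mul, tr_mul, map_zsmul]

end ext

section main

variable {k : ℕ} {L : Fin (k + 1) → Type} [∀ j, Group (L j)] {S : Type} [Group S]
    (π : S →* ∀ j, L j) (N : ∀ j, Subgroup (L j)) (ν : ∀ j, N j →* S)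

/-- the restriction to the image of `π` -/
noncomputable abbrev rT : L2 (∀ j, L j) →L[ℝ] L2 π.range :=
  pull (Subtype.val : π.range → ∀ j, L j) Subtype.val_injective

/-- the action on the image -/
abbrev ρT : S →* Equiv.Perm π.range := (lmP π.range).comp π.rangeRestrict

/-- the action of `N j` on the image -/
abbrev αT (j : Fin (k + 1)) : N j →* Equiv.Perm π.range := (ρT π).comp (ν j)

lemma rT_lm (s : S) (ξ : L2 (∀ j, L j)) : rT π (lm (π s) ξ) = tr (ρT π s) (rT π ξ) := by
  ext ω
  rfl

lemma inclN_mem (hν : ∀ j y, π (ν j y) = Pi.mulSingle j (y : L j)) (y : ∀ j, N j) :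
    inclN N y ∈ π.range :=
  Subgroup.pi_mem_of_mulSingle_mem _ fun i => ⟨ν i (y i), hν i (y i)⟩

/-- the inclusion of `∏ N j` in the image of `π` -/
def κT (hν : ∀ j y, π (ν j y) = Pi.mulSingle j (y : L j)) : (∀ j, N j) → π.range :=
  fun y => ⟨inclN N y, inclN_mem π N ν hν y⟩

lemma κT_inj (hν : ∀ j y, π (ν j y) = Pi.mulSingle j (y : L j)) :
    Function.Injective (κT π N ν hν) := by
  intro y y' h
  exact inclN_inj N (congrArg Subtype.val h)

lemma κT_tr (hν : ∀ j y, π (ν j y) = Pi.mulSingle j (y : L j)) (j : Fin (k + 1)) (g : N j)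
    (ξ : L2 π.range) :
    pull (κT π N ν hν) (κT_inj π N ν hν) (tr (αT π N ν j g) ξ) =
      tr (lmJ (fun j => N j) j g) (pull (κT π N ν hν) (κT_inj π N ν hν) ξ) := by
  ext y
  show ξ ((αT π N ν j g).symm (κT π N ν hν y)) =
    ξ (κT π N ν hν ((lmJ (fun j => N j) j g).symm y))
  refine congrArg (fun ω => ξ ω) ?_
  apply Subtype.ext
  show (π (ν j g))⁻¹ * inclN N y = inclN N ((Pi.mulSingle j g)⁻¹ * y)
  rw [hν]
  funext i
  by_cases h : i = j
  · subst h
    simp [inclN]
  · simp [inclN, Pi.mulSingle_eq_of_ne h]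

lemma αT_free (hν : ∀ j y, π (ν j y) = Pi.mulSingle j (y : L j)) (j : Fin (k + 1)) :
    FreeAct (αT π N ν j) := by
  intro t ω h
  have h1 : π (ν j t) * (ω : ∀ j, L j) = ω := congrArg Subtype.val h
  have h2 : π (ν j t) = 1 := by
    simpa using h1
  rw [hν] at h2
  have h3 := congrFun h2 j
  rw [Pi.mulSingle_eq_same] at h3
  exact Subtype.ext h3

lemma freePair_sub {G : Type} [Group G] (N : Subgroup G) (a b : N)
    (h : FreePair (a : G) (b : G)) : FreePair a b := by
  unfold FreePair at h ⊢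
  have h1 : N.subtype.comp (FreeGroup.lift (fun i : Bool => cond i a b)) =
      FreeGroup.lift (fun i : Bool => cond i (a : G) (b : G)) := by
    ext i
    cases i <;> simp
  intro u v huv
  apply h
  rw [← h1, MonoidHom.comp_apply, MonoidHom.comp_apply, huv]

theorem inj1 (hS : SgapStatement) (hK : KapStatement) (hZ : ZchStatement)
    (hC : CupcocStatement) (hE : CupeqStatement) : Inj1Statement := by
  intro k L _ S _ π N hab ν hν hcomm B w hw b hb
  choose a0 ha0 b0 hb0 hfree using hab
  -- the data for the normalization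
  have hD : ∀ j, ∃ D : L2 π.range →L[ℝ] L2 π.range,
      (∀ ξ, D (Lap (αT π N ν j) ⟨a0 j, ha0 j⟩ ⟨b0 j, hb0 j⟩ ξ) = ξ) ∧
      ∀ ξ, Lap (αT π N ν j) ⟨a0 j, ha0 j⟩ ⟨b0 j, hb0 j⟩ (D ξ) = ξ := fun j =>
    hS _ _ _ (αT_free π N ν hν j) _ _ (freePair_sub (N j) ⟨a0 j, ha0 j⟩ ⟨b0 j, hb0 j⟩ (hfree j))
  choose D hD1 hD2 using hD
  have hdata : KapData (αT π N ν) D (fun j => ⟨a0 j, ha0 j⟩) (fun j => ⟨b0 j, hb0 j⟩) :=
    { comm := by
        intro i j hij g h
        show ρT π (ν i g) * ρT π (ν j h) = ρT π (ν j h) * ρT π (ν i g)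
        rw [← map_mul, ← map_mul, hcomm i j hij]
      left := hD1
      right := hD2 }
  have hlim := (hK.1 _ _ _ _ _ _ _ hdata).2
  obtain ⟨z, a, e, he, ha, hz, hev⟩ := hZ k L S π N ν hν hcomm
  -- the cocycle
  set c := cup (k + 1) (wS π w) with hc
  have hceq : ∀ (s : S) (t : Fin (k + 1 + 1) → S), c (fun i => s * t i) = lm (π s) (c t) :=
    fun s t => hE _ L S π w hw s t
  have hevact : ∀ (s : S) (v : BC S (k + 1)), ev c (act s v) = lm (π s) (ev c v) := fun s v =>
    ev_act c s ((lm (π s) : L2 (∀ j, L j) →L[ℝ] L2 (∀ j, L j)) : L2 (∀ j, L j) →+ L2 (∀ j, L j))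
      (hceq s) v
  -- convergence on all chains
  have hconv : ∀ v : B.Y →₀ MonoidAlgebra ℤ S, Filter.Tendsto
      (fun i => ext (ρT π) (b i) (B.dd v)) Filter.atTop (nhds (rT π (ev c (B.f v)))) := by
    intro v
    induction v using free_induction with
    | h0 => simp
    | hadd v v' hv hv' =>
      simp only [map_add]
      exact hv.add hv'
    | hs y s m =>
      have h1 : (Finsupp.single y (MonoidAlgebra.single s m) : B.Y →₀ MonoidAlgebra ℤ S) =
          m • sact s (Finsupp.single y (1 : MonoidAlgebra ℤ S)) := by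
        rw [MonoidAlgebra.one_def, sact_single, mul_one, Finsupp.smul_single]
        congr 1
        rw [MonoidAlgebra.smul_single, smul_eq_mul, mul_one]
      have h2 : ∀ u : B.Y →₀ MonoidAlgebra ℤ S, B.dd (sact s u) = sact s (B.dd u) := fun u =>
        map_smul B.dd _ _
      have h3 : ∀ i, ext (ρT π) (b i) (B.dd (Finsupp.single y (MonoidAlgebra.single s m))) =
          m • tr (ρT π s) (ext (ρT π) (b i) (B.dd (Finsupp.single y 1))) := by
        intro i
        rw [h1, map_zsmul, map_zsmul, h2, ext_sact]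
      have h4 : rT π (ev c (B.f (Finsupp.single y (MonoidAlgebra.single s m)))) =
          m • tr (ρT π s) (rT π (ev c (B.f (Finsupp.single y 1)))) := by
        rw [h1, map_zsmul, map_zsmul, map_zsmul, B.f_eqv, hevact, rT_lm]
      simp only [h3]
      rw [h4]
      exact (((tr (ρT π s)).continuous.tendsto _).comp (hb y)).const_smul m
  -- the decomposition
  have hcb : ∀ v, ev c (bd S (k + 1) v) = 0 := ev_bd c (fun t => hC S _ (k + 1) (wS π w) t)
  have hdec : ∀ y, rT π (ev c (B.f (B.g (z y)))) = e • rT π (w (inclN N y)) -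
      ∑ j, (tr (αT π N ν j (y j)) (rT π (ev c (B.h' (a j y)))) - rT π (ev c (B.h' (a j y)))) := by
    intro y
    have h1 : B.f (B.g (z y)) = z y - bd S (k + 1) (B.h (z y)) - B.h' (bd S k (z y)) := by
      rw [sub_sub, ← B.hom (z y)]
      abel
    have h2 : ev c (B.f (B.g (z y))) = e • w (inclN N y) - ev c (B.h' (bd S k (z y))) := by
      rw [h1, map_sub, map_sub, hcb, sub_zero, hc, hev w hw y]
    rw [h2, hz y, map_sub, map_zsmul, map_sum, map_sum, map_sum]
    congr 1
    refine Finset.sum_congr rfl fun j _ => ?_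
    rw [map_sub, map_sub, map_sub, B.h'_eqv, hevact, rT_lm]
    rfl
  have hPIlim : PI (αT π N ν) (fun y => rT π (ev c (B.f (B.g (z y))))) := by
    refine hlim (fun i y => ext (ρT π) (b i) (B.dd (B.g (z y)))) _ (fun y => hconv _) ?_
    intro i
    refine ⟨fun j y => ext (ρT π) (b i) (B.g' (a j y)), fun j y g => ?_, fun y => ?_⟩
    · show ext (ρT π) (b i) (B.g' (a j _)) = _
      rw [ha]
    · show ext (ρT π) (b i) (B.dd (B.g (z y))) = _
      rw [B.comm, hz y, map_sum, map_sum]
      refine Finset.sum_congr rfl fun j _ => ?_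
      rw [map_sub, map_sub, B.g'_eqv, ext_sact]
      rfl
  have hPIc : PI (αT π N ν) (fun y => ∑ j, (tr (αT π N ν j (y j))
      (rT π (ev c (B.h' (a j y)))) - rT π (ev c (B.h' (a j y))))) :=
    ⟨fun j y => rT π (ev c (B.h' (a j y))), fun j y g => by
      show rT π (ev c (B.h' (a j _))) = _
      rw [ha], fun y => rfl⟩
  have hPIe : PI (αT π N ν) (fun y => e • rT π (w (inclN N y))) := by
    have := pi_add hPIlim hPIc
    refine this.imp fun a ha => ⟨ha.1, fun y => ?_⟩
    rw [← ha.2 y]
    show _ = rT π (ev c (B.f (B.g (z y)))) + _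
    rw [hdec y]
    abel
  have hPI : PI (αT π N ν) (fun y => rT π (w (inclN N y))) := by
    have := pi_zsmul hPIe e
    refine this.imp fun a ha => ⟨ha.1, fun y => ?_⟩
    rw [← ha.2 y]
    show _ = e • e • rT π (w (inclN N y))
    rw [smul_smul]
    rcases he with rfl | rfl <;> simp
  -- restriction to `∏ N j`
  obtain ⟨a', ha', hw'⟩ := hPI
  refine ⟨fun j y => pull (κT π N ν hν) (κT_inj π N ν hν) (a' j y), fun j y g => ?_,
    fun y => ?_⟩
  · show pull _ _ (a' j _) = _
    rw [ha']
  · have h1 : resN N w y = pull (κT π N ν hν) (κT_inj π N ν hν) (rT π (w (inclN N y))) := rfl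
    have h2 : rT π (w (inclN N y)) = _ := hw' y
    rw [h1, h2, map_sum]
    refine Finset.sum_congr rfl fun j _ => ?_
    rw [map_sub, κT_tr]

end main

end Pool.Agent.Lib.MP_b1a3a4_al.MVS.LG.H72
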