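import Pool.Agent.Lib.MP_b1a3a4_al.MVS.LG.H14.Vsub

/-!
# Project MVS, part IV: RED (12.11), reduced `ℓ²`-cohomology of limit groups
-/

set_option linter.all false

namespace Pool.Agent.Lib.MP_b1a3a4_al.MVS.LG.H72

open Finsupp

lemma inner_lm {L : Type} [Group L] (g : L) (ξ η : L2 L) :
    inner ℝ (lm g ξ) η = inner ℝ ξ (lm g⁻¹ η) := by
  have h := inner_tr (lmP L g) ξ (lm g⁻¹ η)
  have h2 : tr (lmP L g) (lm g⁻¹ η) = η := by
    show lm g (lm g⁻¹ η) = η
    rw [← lm_mul, mul_inv_cancel, lm_one]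
  rw [h2] at h
  exact h

/-- a derivation of the free group vanishing on the kernel descends -/
lemma descend {r : ℕ} {L : Type} [Group L] (φ : FreeGroup (Fin r) →* L)
    (hφ : Function.Surjective φ) (δ : FreeGroup (Fin r) → L2 L) (hδ : DerA φ δ)
    (hk : ∀ g, φ g = 1 → δ g = 0) : ∃ δ' : L → L2 L, Der δ' ∧ ∀ g, δ' (φ g) = δ g := by
  have hwd : ∀ g h, φ g = φ h → δ g = δ h := by
    intro g h hgh
    have h1 := hδ h (h⁻¹ * g)
    rw [mul_inv_cancel_left, hk (h⁻¹ * g) (by rw [map_mul, map_inv, hgh, inv_mul_cancel]),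
      map_zero, add_zero] at h1
    exact h1
  choose s hs using hφ
  refine ⟨fun g => δ (s g), fun g h => ?_, fun g => hwd _ _ (hs _)⟩
  show δ (s (g * h)) = δ (s g) + lm g (δ (s h))
  rw [hwd (s (g * h)) (s g * s h) (by rw [map_mul, hs, hs, hs]), hδ, hs]

theorem red (hR : RedfStatement) (hA : ApproxStatement) (hV : VsubStatement)
    (hP : ProjStatement) : RedStatement := by
  intro L _ r x hx hfrf hna
  by_contra hno
  -- the presentation
  set φ : FreeGroup (Fin r) →* L := FreeGroup.lift x with hφd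
  have hφof : ∀ i, φ (FreeGroup.of i) = x i := fun i => by simp [hφd]
  have hφ : Function.Surjective φ := by
    rw [← MonoidHom.range_eq_top, hφd, FreeGroup.range_lift_eq_closure, hx]
  obtain ⟨e, he⟩ := exists_surjective_nat φ.ker
  let w : ∀ m : ℕ, Fin m → FreeGroup (Fin r) := fun m l => (e l : FreeGroup (Fin r))
  choose P hP1 hP2 hP3 using fun m => hV r m (w m) L φ
  -- a vector in all subspaces gives a derivation of `L`
  have hinf : ∀ u : L2 (Fin r × L), (∀ m, P m u = u) → u = 0 := by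
    intro u hu
    have hu1 : ∀ m, InV φ (w m) u := fun m => (hP2 m u).1 (hu m)
    obtain ⟨δ, hδ, hδφ⟩ := descend φ hφ (fun g => H14.E φ g u) (H14.E_der φ u) (by
      intro g hg
      obtain ⟨l, hl⟩ := he ⟨g, hg⟩
      have h1 := ((H14.inV_iff φ (w (l + 1)) u).1 (hu1 (l + 1))).2 (Fin.last l)
      have h2 : w (l + 1) (Fin.last l) = g := by
        show (e l : FreeGroup (Fin r)) = g
        rw [hl]
      rw [h2] at h1
      exact h1)
    have hval : ∀ i, δ (x i) = co i u := fun i => by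
      have := hδφ (FreeGroup.of i)
      rw [hφof, H14.E_of] at this
      exact this
    have hort : ∀ ξ : L2 L, ∑ i, inner ℝ (δ (x i)) (lm (x i) ξ - ξ) = 0 := by
      intro ξ
      have h1 := (hu1 0).1
      have h2 : ∑ i, inner ℝ (δ (x i)) (lm (x i) ξ - ξ) =
          inner ℝ (∑ i, (lm (φ (FreeGroup.of i))⁻¹ (co i u) - co i u)) ξ := by
        rw [sum_inner]
        refine Finset.sum_congr rfl fun i _ => ?_
        rw [inner_sub_left, inner_sub_right, inner_lm, inv_inv, hφof, hval]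
      rw [h2, h1, inner_zero_left]
    have hz : ∀ g, δ g = 0 := by
      intro g
      by_contra hg
      exact hno ⟨δ, hδ, ⟨g, hg⟩, hort⟩
    ext p
    have h3 := congrArg (fun ξ : L2 L => ξ p.2) (hval p.1)
    rw [hz] at h3
    exact h3.symm
  have hdec : ∀ m ξ, P (m + 1) ξ = ξ → P m ξ = ξ := by
    intro m ξ h
    rw [hP2] at h ⊢
    rw [H14.inV_iff] at h ⊢
    refine ⟨h.1, fun l => h.2 (Fin.castSucc l)⟩
  have hlim := hP.2 _ P hP1 hdec hinf
  have hsum : Filter.Tendsto (fun m => ∑ i, ‖P m (bv (i, 1))‖ ^ 2) Filter.atTop (nhds 0) := by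
    have := tendsto_finset_sum (Finset.univ : Finset (Fin r))
      (fun i _ => hlim (bv (i, (1 : L))))
    simpa using this
  obtain ⟨m, hm⟩ := ((hsum.eventually (gt_mem_nhds (show (0 : ℝ) < 1 by norm_num)))).exists
  obtain ⟨a, ha1, ha2⟩ := hA r m (w m)
  obtain ⟨t, ht⟩ := (((ha1 L φ (P m) (hP1 m) (hP2 m)).2.eventually (gt_mem_nhds hm))).exists
  obtain ⟨X, hX⟩ := ha2 L φ t
  obtain ⟨g, h, hgh⟩ := hna
  classical
  obtain ⟨F0, _, _, f, hf⟩ := hfrf (X ∪ {g * h, h * g})
  -- the image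
  have hf' : Set.InjOn f.rangeRestrict (X : Set L) := by
    intro y hy y' hy' hyy
    refine hf ?_ ?_ (congrArg Subtype.val hyy)
    · simp only [Finset.coe_union, Set.mem_union]
      exact Or.inl hy
    · simp only [Finset.coe_union, Set.mem_union]
      exact Or.inl hy'
  have hna' : NonAb f.range := by
    refine ⟨f.rangeRestrict g, f.rangeRestrict h, fun hc => hgh ?_⟩
    rw [← map_mul, ← map_mul] at hc
    refine hf ?_ ?_ (congrArg Subtype.val hc)
    · simp
    · simp
  have ht' : a f.range (f.rangeRestrict.comp φ) t < 1 := by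
    rw [hX f.range f.rangeRestrict hf']
    exact ht
  obtain ⟨Q, hQ1, hQ2, hQ3⟩ := hV r m (w m) f.range (f.rangeRestrict.comp φ)
  have h1 : ∑ i, ‖Q (bv (i, 1))‖ ^ 2 < 1 :=
    lt_of_le_of_lt ((ha1 f.range (f.rangeRestrict.comp φ) Q hQ1 hQ2).1 t) ht'
  have h2 : 1 ≤ ∑ i, ‖Q (bv (i, 1))‖ ^ 2 := by
    refine hR f.range hna' r (f.rangeRestrict.comp φ)
      (f.rangeRestrict_surjective.comp hφ) Q hQ1 hQ3 ?_
    intro δ u hδ hval hsm
    rw [hQ2]
    refine ⟨hsm, fun δ' hδ' hval' l => ?_⟩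
    have h3 : ∀ g, δ' g = δ (f.rangeRestrict.comp φ g) := by
      refine H14.der_unique hδ' (φ := f.rangeRestrict.comp φ)
        (δ' := fun g => δ (f.rangeRestrict.comp φ g)) ?_ ?_
      · intro g h
        show δ _ = δ _ + _
        rw [map_mul, hδ]
      · intro i
        rw [hval', hval]
    rw [h3]
    have h4 : (f.rangeRestrict.comp φ) (w m l) = 1 := by
      have h5 : φ (w m l) = 1 := (e l).2
      rw [MonoidHom.comp_apply, h5, map_one]
    rw [h4]
    have h6 := hδ 1 1
    rw [mul_one, lm_one] at h6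
    simpa using h6
  linarith

end Pool.Agent.Lib.MP_b1a3a4_al.MVS.LG.H72
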